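import Mathlib
import Pool.Agent.R104.NBCK2
import Pool.Agent.R104.NBCK4

set_option autoImplicit false

namespace Pool.Agent.Results.MP_25dd1e_co.Determination

open Pool.Agent.R104.Shift

/-- The value of `N(b, c, k)` for all positive integers `b ≤ c` and `k`. -/
theorem result : ∀ b c k : ℕ, 0 < b → 0 < k → b ≤ c →
    -- `c > 2 b`
    (2 * b < c → N b c k = ⊤) ∧
    -- `c = 2 b`
    (c = 2 * b → padicValNat 2 k ≤ padicValNat 2 b → N b c k = ⊤) ∧
    (c = 2 * b → padicValNat 2 b < padicValNat 2 k →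
      N b c k = ((b + k - Nat.gcd b k : ℕ) : ℕ∞)) ∧
    -- `c < 2 b`
    (c < 2 * b → c - b < k * (b / k) → N b c k = (b : ℕ∞)) ∧
    (c < 2 * b → k * (b / k) ≤ c - b → ∀ u L A : ℕ,
      u = k * (b / k + 1) - b → L = 2 * b - c + 2 * u → A = k + c - 2 * b - 1 →
      N b c k = ((b + 1 + u * (A / L) + min (u - 1) (A % L) : ℕ) : ℕ∞)) := by
  intro b c k hb hk hbc
  refine ⟨fun h => N_top (fun n => Ex_big hk h), ?_, ?_, ?_, ?_⟩
  · rintro rfl h
    exact N_top (fun n => Ex_val hb hk h)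
  · rintro rfl h
    have h2 := two_gcd_dvd hb hk h
    have h3 := not_Ex_gcd hb hk h2
    have hg := Nat.le_of_dvd hb (Nat.gcd_dvd_left b k)
    have e : b + k - Nat.gcd b k = b + k - Nat.gcd b k - 1 + 1 := by omega
    rw [e] at h3 ⊢
    exact N_eq (Ex_gcd hb hk h2) h3
  · intro hc h
    have h1 : Ex b c k (b - 1) := Ex_small hk (by omega)
    have h2 : ¬ Ex b c k (b - 1 + 1) := by
      rw [Nat.sub_add_cancel hb]
      exact not_Ex_b hk (by omega)
    have h3 := N_eq h1 h2
    rwa [Nat.sub_add_cancel hb] at h3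
  · intro hc h u L A hu hL hA
    subst hu hL hA
    obtain ⟨h1, h2⟩ := value_gen hk hbc hc (by omega)
    rw [N_eq h1 h2]
    congr 1
    ring

end Pool.Agent.Results.MP_25dd1e_co.Determination
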